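import Mathlib

/-!
# Power sums of Satake parameters: lower bounds

`psum_lower`: for complex numbers `z_j`, `j ∈ J`, in the closed unit disc, one of them on the unit circle, one of the
power sums `∑ z_j^k`, `1 ≤ k ≤ |J|`, is at least `c > 0` in absolute value, `c` depending only on the number of
variables.  `unitary_lower`: so for unitary Satake parameters `α_i`, `i = 1, ..., n`, one of them of absolute value
`X`, `X` large, one of the traces `∑ α_i^k`, `1 ≤ k ≤ n / 2`, is `≥ c X^k`.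
`four`: for `n = 4`, `|e_1|² + |e_2|² ≥ (|α_i| + 1 / |α_i| - 2)²`.
-/

set_option autoImplicit false

namespace Pool.Agent.Q18.S

open Finset

/-- power sums do not vanish simultaneously -/
theorem psum_ne {m : ℕ} (z : Fin m → ℂ) {i₀ : Fin m} (h0 : z i₀ ≠ 0) :
    ∃ k, 1 ≤ k ∧ k ≤ m ∧ ∑ i, z i ^ k ≠ 0 := by
  classical
  by_contra hcon
  push Not at hcon
  set W : Finset ℂ := ((univ.image z).erase (z i₀)).erase 0 with hW
  set P : Polynomial ℂ := Polynomial.X * ∏ w ∈ W, (Polynomial.X - Polynomial.C w) with hP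
  have hmon : (∏ w ∈ W, (Polynomial.X - Polynomial.C w)).Monic :=
    Polynomial.monic_prod_of_monic _ _ fun w _ => Polynomial.monic_X_sub_C w
  have hdeg : P.natDegree = 1 + W.card := by
    rw [hP, Polynomial.natDegree_mul Polynomial.X_ne_zero hmon.ne_zero, Polynomial.natDegree_X,
      Polynomial.natDegree_prod_of_monic _ _ fun w _ => Polynomial.monic_X_sub_C w]
    simp
  have hcard : P.natDegree ≤ m := by
    have h1 : W.card ≤ ((univ.image z).erase (z i₀)).card := Finset.card_erase_le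
    have h2 : z i₀ ∈ univ.image z := Finset.mem_image_of_mem _ (Finset.mem_univ _)
    have h3 : ((univ.image z).erase (z i₀)).card + 1 = (univ.image z).card := Finset.card_erase_add_one h2
    have h4 : (univ.image z).card ≤ m := by
      calc (univ.image z).card ≤ (univ : Finset (Fin m)).card := Finset.card_image_le
        _ = m := by simp
    omega
  have hc0 : P.coeff 0 = 0 := by rw [hP]; simp
  have hsum : ∑ i, P.eval (z i) = 0 := by
    calc ∑ i, P.eval (z i) = ∑ i, ∑ k ∈ range (P.natDegree + 1), P.coeff k * z i ^ k :=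
          Finset.sum_congr rfl fun i _ => Polynomial.eval_eq_sum_range _
      _ = ∑ k ∈ range (P.natDegree + 1), P.coeff k * ∑ i, z i ^ k := by
          rw [Finset.sum_comm]
          exact Finset.sum_congr rfl fun k _ => by rw [Finset.mul_sum]
      _ = 0 := by
          refine Finset.sum_eq_zero fun k hk => ?_
          rcases Nat.eq_zero_or_pos k with h | h
          · rw [h, hc0, zero_mul]
          · rw [hcon k h (by have := Finset.mem_range.1 hk; omega), mul_zero]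
  have hval : ∀ i, P.eval (z i) = if z i = z i₀ then P.eval (z i₀) else 0 := by
    intro i
    split_ifs with h
    · rw [h]
    · rw [hP, Polynomial.eval_mul, Polynomial.eval_X, Polynomial.eval_prod]
      by_cases h2 : z i = 0
      · rw [h2, zero_mul]
      · have : z i ∈ W := by
          rw [hW]
          exact Finset.mem_erase.2 ⟨h2, Finset.mem_erase.2 ⟨h, Finset.mem_image_of_mem _ (Finset.mem_univ _)⟩⟩
        rw [Finset.prod_eq_zero this (by simp), mul_zero]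
  rw [Finset.sum_congr rfl fun i _ => hval i, ← Finset.sum_filter, Finset.sum_const, nsmul_eq_mul] at hsum
  have hne : P.eval (z i₀) ≠ 0 := by
    rw [hP, Polynomial.eval_mul, Polynomial.eval_X, Polynomial.eval_prod]
    refine mul_ne_zero h0 (Finset.prod_ne_zero_iff.2 fun w hw => ?_)
    rw [Polynomial.eval_sub, Polynomial.eval_X, Polynomial.eval_C]
    rw [hW, Finset.mem_erase, Finset.mem_erase] at hw
    exact sub_ne_zero.2 fun h => hw.2.1 h.symm
  rcases mul_eq_zero.1 hsum with h | h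
  · have h1 : (univ.filter fun i => z i = z i₀).card = 0 := by exact_mod_cast h
    rw [Finset.card_eq_zero] at h1
    have : i₀ ∈ univ.filter fun i => z i = z i₀ := by simp
    rw [h1] at this
    exact absurd this (Finset.notMem_empty _)
  · exact hne h

/-- lower bound for a power sum, by compactness -/
theorem psum_lower (m : ℕ) : ∃ c : ℝ, 0 < c ∧ ∀ z : Fin m → ℂ, (∀ i, ‖z i‖ ≤ 1) → (∃ i, ‖z i‖ = 1) →
    ∃ k, 1 ≤ k ∧ k ≤ m ∧ c ≤ ‖∑ i, z i ^ k‖ := by
  classical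
  set Kc : Set (Fin m → ℂ) := {z | (∀ i, ‖z i‖ ≤ 1) ∧ ∃ i, ‖z i‖ = 1} with hK
  have hclosed : IsClosed Kc := by
    have h1 : IsClosed {z : Fin m → ℂ | ∀ i, ‖z i‖ ≤ 1} := by
      simp only [Set.ofPred_forall]
      exact isClosed_iInter fun i => isClosed_le (continuous_apply i).norm continuous_const
    have h2 : IsClosed {z : Fin m → ℂ | ∃ i, ‖z i‖ = 1} := by
      simp only [Set.ofPred_exists]
      exact isClosed_iUnion_of_finite fun i => isClosed_eq (continuous_apply i).norm continuous_const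
    exact h1.inter h2
  have hcomp : IsCompact Kc := by
    refine (isCompact_closedBall (0 : Fin m → ℂ) 1).of_isClosed_subset hclosed fun z hz => ?_
    rw [mem_closedBall_zero_iff, pi_norm_le_iff_of_nonneg zero_le_one]
    exact hz.1
  set f : (Fin m → ℂ) → ℝ := fun z => ∑ k ∈ Icc 1 m, ‖∑ i, z i ^ k‖ with hf
  have hcont : Continuous f :=
    continuous_finsetSum _ fun k _ => (continuous_finsetSum _ fun i _ => (continuous_apply i).pow k).norm
  rcases Kc.eq_empty_or_nonempty with he | hne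
  · refine ⟨1, one_pos, fun z h1 h2 => ?_⟩
    have : z ∈ Kc := ⟨h1, h2⟩
    rw [he] at this
    exact absurd this (Set.notMem_empty _)
  · obtain ⟨z₀, hz₀, hmin⟩ := hcomp.exists_isMinOn hne hcont.continuousOn
    have hpos : 0 < f z₀ := by
      obtain ⟨i, hi⟩ := hz₀.2
      obtain ⟨k, hk1, hk2, hk3⟩ := psum_ne z₀ (i₀ := i) (by intro h; rw [h, norm_zero] at hi; exact zero_ne_one hi)
      have h1 : ‖∑ i, z₀ i ^ k‖ ≤ f z₀ :=
        Finset.single_le_sum (f := fun k => ‖∑ i, z₀ i ^ k‖) (fun _ _ => norm_nonneg _) (Finset.mem_Icc.2 ⟨hk1, hk2⟩)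
      exact lt_of_lt_of_le (norm_pos_iff.2 hk3) h1
    refine ⟨f z₀ / (m + 1), by positivity, fun z h1 h2 => ?_⟩
    by_contra hcon
    push Not at hcon
    have h3 : f z₀ ≤ f z := hmin ⟨h1, h2⟩
    have h4 : f z ≤ ∑ _k ∈ Icc 1 m, f z₀ / (m + 1) :=
      Finset.sum_le_sum fun k hk => (hcon k (Finset.mem_Icc.1 hk).1 (Finset.mem_Icc.1 hk).2).le
    rw [Finset.sum_const, Nat.card_Icc, nsmul_eq_mul] at h4
    have h5 : ((m + 1 - 1 : ℕ) : ℝ) = m := by simp
    rw [h5] at h4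
    have h6 : (m : ℝ) * (f z₀ / (m + 1)) < f z₀ := by
      rw [mul_div_assoc', div_lt_iff₀ (by positivity)]
      nlinarith
    linarith

/-- the same for a subset of the indices, with a constant depending only on `n` -/
theorem psum_lower' (n : ℕ) : ∃ c : ℝ, 0 < c ∧ ∀ (J : Finset (Fin n)) (z : Fin n → ℂ), (∀ i ∈ J, ‖z i‖ ≤ 1) →
    (∃ i ∈ J, ‖z i‖ = 1) → ∃ k, 1 ≤ k ∧ k ≤ J.card ∧ c ≤ ‖∑ i ∈ J, z i ^ k‖ := by
  classical
  choose c hc hc2 using psum_lower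
  obtain ⟨m₀, hm₀, hmin⟩ := Finset.exists_min_image (Finset.range (n + 1)) c ⟨0, by simp⟩
  refine ⟨c m₀, hc m₀, fun J z h1 h2 => ?_⟩
  have hJ : J.card ∈ Finset.range (n + 1) := by
    have : J.card ≤ (univ : Finset (Fin n)).card := Finset.card_le_univ J
    simp at this ⊢
    omega
  set e := J.equivFin with he
  obtain ⟨i, hi, hi2⟩ := h2
  obtain ⟨k, hk1, hk2, hk3⟩ := hc2 J.card (fun j => z (e.symm j).1) (fun j => h1 _ (e.symm j).2)
    ⟨e ⟨i, hi⟩, by simpa using hi2⟩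
  refine ⟨k, hk1, hk2, (hmin _ hJ).trans (hk3.trans (le_of_eq ?_))⟩
  congr 1
  calc ∑ j, z (e.symm j).1 ^ k = ∑ x : J, z x.1 ^ k := Equiv.sum_comp e.symm fun x : J => z x.1 ^ k
    _ = ∑ i ∈ J, z i ^ k := Finset.sum_coe_sort J fun i => z i ^ k

/-- unitary Satake parameters: at most `n / 2` of them have absolute value `> 1` -/
theorem card_big {n : ℕ} {α : Fin n → ℂ} {τ : Equiv.Perm (Fin n)}
    (hτ : ∀ i, α (τ i) = ((starRingEnd ℂ) (α i))⁻¹) : (univ.filter fun i => 1 < ‖α i‖).card ≤ n / 2 := by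
  classical
  set J := univ.filter fun i => 1 < ‖α i‖ with hJ
  have h1 : (J.map τ.toEmbedding) ⊆ Jᶜ := by
    intro j hj
    rw [Finset.mem_map] at hj
    obtain ⟨i, hi, rfl⟩ := hj
    rw [hJ, Finset.mem_filter] at hi
    rw [Finset.mem_compl, hJ, Finset.mem_filter]
    intro h
    have h2 := h.2
    simp only [Equiv.coe_toEmbedding] at h2
    rw [hτ i, norm_inv, RCLike.norm_conj] at h2
    have h3 : ‖α i‖⁻¹ < 1 := inv_lt_one_of_one_lt₀ hi.2
    linarith
  have h2 := Finset.card_le_card h1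
  rw [Finset.card_map, Finset.card_compl, Fintype.card_fin] at h2
  omega

/-- **The traces of powers of unitary Satake parameters.** -/
theorem unitary_lower (n : ℕ) : ∃ c X₀ : ℝ, 0 < c ∧ 1 ≤ X₀ ∧ ∀ α : Fin n → ℂ,
    (∃ τ : Equiv.Perm (Fin n), ∀ i, α (τ i) = ((starRingEnd ℂ) (α i))⁻¹) → ∀ X : ℝ, X₀ ≤ X → (∃ i, X ≤ ‖α i‖) →
      ∃ k, 1 ≤ k ∧ k ≤ n / 2 ∧ c * X ^ k ≤ ‖∑ i, α i ^ k‖ := by
  classical
  obtain ⟨c, hc, hc2⟩ := psum_lower' n
  refine ⟨c / 2, max 2 (2 * n / c), by positivity, le_max_of_le_left (by norm_num), ?_⟩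
  rintro α ⟨τ, hτ⟩ X hX ⟨i₁, hi₁⟩
  obtain ⟨i₀, -, hmax⟩ := Finset.exists_max_image univ (fun i => ‖α i‖) ⟨i₁, Finset.mem_univ _⟩
  set M := ‖α i₀‖ with hM
  have hXM : X ≤ M := hi₁.trans (hmax i₁ (Finset.mem_univ _))
  have hX2 : 2 ≤ X := (le_max_left _ _).trans hX
  have hXn : 2 * n / c ≤ X := (le_max_right _ _).trans hX
  have hM0 : 0 < M := by linarith
  have hMc : (n : ℝ) ≤ c / 2 * M := by
    have := hXn.trans hXM
    rw [div_le_iff₀ hc] at this
    linarith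
  set J := univ.filter fun i => 1 < ‖α i‖ with hJ
  obtain ⟨k, hk1, hk2, hk3⟩ := hc2 J (fun i => α i / M) (fun i _ => by
      rw [norm_div, Complex.norm_real, Real.norm_of_nonneg hM0.le]
      exact div_le_one_of_le₀ (hmax i (Finset.mem_univ _)) hM0.le)
    ⟨i₀, Finset.mem_filter.2 ⟨Finset.mem_univ _, by linarith⟩, by
      rw [norm_div, Complex.norm_real, Real.norm_of_nonneg hM0.le, ← hM, div_self hM0.ne']⟩
  refine ⟨k, hk1, hk2.trans (card_big hτ), ?_⟩
  have h1 : ‖∑ i ∈ J, α i ^ k‖ = M ^ k * ‖∑ i ∈ J, (α i / M) ^ k‖ := by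
    have : ∑ i ∈ J, α i ^ k = (M : ℂ) ^ k * ∑ i ∈ J, (α i / M) ^ k := by
      rw [Finset.mul_sum]
      refine Finset.sum_congr rfl fun i _ => ?_
      rw [div_pow, mul_div_cancel₀]
      exact pow_ne_zero _ (by exact_mod_cast hM0.ne')
    rw [this, norm_mul, norm_pow, Complex.norm_real, Real.norm_of_nonneg hM0.le]
  have h2 : ‖∑ i ∈ univ.filter (fun i => ¬ 1 < ‖α i‖), α i ^ k‖ ≤ n := by
    refine (norm_sum_le _ _).trans ?_
    calc ∑ i ∈ univ.filter (fun i => ¬ 1 < ‖α i‖), ‖α i ^ k‖ ≤ ∑ _i ∈ univ.filter (fun i => ¬ 1 < ‖α i‖), (1 : ℝ) := by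
          refine Finset.sum_le_sum fun i hi => ?_
          rw [norm_pow]
          exact pow_le_one₀ (norm_nonneg _) (not_lt.1 (Finset.mem_filter.1 hi).2)
      _ = ((univ.filter (fun i => ¬ 1 < ‖α i‖)).card : ℝ) := by simp
      _ ≤ n := by
          have : (univ.filter (fun i => ¬ 1 < ‖α i‖)).card ≤ n := by
            simpa using Finset.card_le_univ (univ.filter (fun i => ¬ 1 < ‖α i‖))
          exact_mod_cast this
  have h3 : ∑ i, α i ^ k = ∑ i ∈ J, α i ^ k + ∑ i ∈ univ.filter (fun i => ¬ 1 < ‖α i‖), α i ^ k :=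
    (Finset.sum_filter_add_sum_filter_not univ _ _).symm
  have h4 : ‖∑ i ∈ J, α i ^ k‖ ≤ ‖∑ i, α i ^ k‖ + n := by
    have : ∑ i ∈ J, α i ^ k = ∑ i, α i ^ k - ∑ i ∈ univ.filter (fun i => ¬ 1 < ‖α i‖), α i ^ k := by
      rw [h3]; ring
    rw [this]
    exact (norm_sub_le _ _).trans (by linarith)
  have h5 : c * M ^ k ≤ ‖∑ i ∈ J, α i ^ k‖ := by
    rw [h1, mul_comm]
    exact mul_le_mul_of_nonneg_left hk3 (by positivity)
  have h6 : M ≤ M ^ k := by
    calc M = M ^ 1 := (pow_one _).symm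
      _ ≤ M ^ k := pow_le_pow_right₀ (by linarith) hk1
  have h7 : (n : ℝ) ≤ c / 2 * M ^ k := hMc.trans (mul_le_mul_of_nonneg_left h6 (by positivity))
  have h8 : X ^ k ≤ M ^ k := pow_le_pow_left₀ (by linarith) hXM k
  nlinarith

/-! ### `n = 4` -/

/-- the trace of the exterior square of the `k`-th power -/
noncomputable def ext2 {n : ℕ} (α : Fin n → ℂ) (k : ℕ) : ℂ := ((∑ i, α i ^ k) ^ 2 - ∑ i, α i ^ (2 * k)) / 2

/-- the algebra behind `four` -/
theorem four_alg {u w : ℂ} (hu : ‖u‖ = 1) (hw : ‖w‖ = 1) {a b : ℝ} (ha : 2 ≤ a) :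
    (a - 2) ^ 2 ≤ ‖u * a + w * b‖ ^ 2 + ‖u ^ 2 + w ^ 2 + u * w * (a * b)‖ ^ 2 := by
  by_cases hb : |b| ≤ 2
  · have h1 : a - 2 ≤ ‖u * a + w * b‖ := by
      have h2 : ‖u * (a : ℂ)‖ = a := by
        rw [norm_mul, hu, one_mul, Complex.norm_real, Real.norm_of_nonneg (by linarith)]
      have h3 : ‖w * (b : ℂ)‖ = |b| := by rw [norm_mul, hw, one_mul, Complex.norm_real, Real.norm_eq_abs]
      have h4 : ‖u * (a : ℂ)‖ ≤ ‖u * a + w * b‖ + ‖w * (b : ℂ)‖ := by
        calc ‖u * (a : ℂ)‖ = ‖(u * a + w * b) - w * b‖ := by ring_nf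
          _ ≤ _ := norm_sub_le _ _
      linarith
    nlinarith [norm_nonneg (u * (a : ℂ) + w * b), sq_nonneg ‖u ^ 2 + w ^ 2 + u * w * (a * b)‖]
  · push Not at hb
    have h1 : a - 2 ≤ ‖u ^ 2 + w ^ 2 + u * w * (a * b)‖ := by
      have h2 : ‖u * w * ((a : ℂ) * b)‖ = a * |b| := by
        rw [norm_mul, norm_mul, norm_mul, hu, hw, one_mul, one_mul, Complex.norm_real, Complex.norm_real,
          Real.norm_of_nonneg (by linarith), Real.norm_eq_abs]
      have h3 : ‖u ^ 2 + w ^ 2‖ ≤ 2 := by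
        refine (norm_add_le _ _).trans ?_
        rw [norm_pow, norm_pow, hu, hw]
        norm_num
      have h4 : ‖u * w * ((a : ℂ) * b)‖ ≤ ‖u ^ 2 + w ^ 2 + u * w * (a * b)‖ + ‖u ^ 2 + w ^ 2‖ := by
        calc ‖u * w * ((a : ℂ) * b)‖ = ‖(u ^ 2 + w ^ 2 + u * w * (a * b)) - (u ^ 2 + w ^ 2)‖ := by ring_nf
          _ ≤ _ := norm_sub_le _ _
      nlinarith
    nlinarith [norm_nonneg (u ^ 2 + w ^ 2 + u * w * ((a : ℂ) * b)), sq_nonneg ‖u * (a : ℂ) + w * b‖]

theorem four_aux {α : Fin 4 → ℂ} (h0 : ∀ i, α i ≠ 0) {τ : Equiv.Perm (Fin 4)}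
    (hτ : ∀ i, α (τ i) = ((starRingEnd ℂ) (α i))⁻¹) (h1 : α 1 = ((starRingEnd ℂ) (α 0))⁻¹) :
    (‖α 0‖ + ‖α 0‖⁻¹ - 2) ^ 2 ≤ ‖∑ i, α i‖ ^ 2 + ‖ext2 α 1‖ ^ 2 := by
  set M := ‖α 0‖ with hM
  have hM0 : 0 < M := norm_pos_iff.2 (h0 0)
  have hMc : (M : ℂ) ≠ 0 := by exact_mod_cast hM0.ne'
  set u : ℂ := α 0 / M with hu
  have hu1 : ‖u‖ = 1 := by
    rw [hu, norm_div, Complex.norm_real, Real.norm_of_nonneg hM0.le, ← hM, div_self hM0.ne']
  have hα0 : α 0 = u * M := by rw [hu, div_mul_cancel₀ _ hMc]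
  have hunit : ∀ z : ℂ, ‖z‖ = 1 → ((starRingEnd ℂ) z)⁻¹ = z := by
    intro z hz
    have h2 : z * (starRingEnd ℂ) z = 1 := by
      rw [Complex.mul_conj, Complex.normSq_eq_norm_sq, hz]
      norm_num
    exact (eq_inv_of_mul_eq_one_left h2).symm
  have hα1 : α 1 = u * ((M⁻¹ : ℝ) : ℂ) := by
    rw [h1, hα0, map_mul, mul_inv, hunit u hu1, Complex.conj_ofReal, Complex.ofReal_inv]
  set p := α 2 with hp
  set q := α 3 with hq
  have hp0 : p ≠ 0 := h0 2
  have hq0 : q ≠ 0 := h0 3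
  have h2 : ((starRingEnd ℂ) (α 1))⁻¹ = α 0 := by
    rw [h1, map_inv₀, Complex.conj_conj, inv_inv]
  have hsum : ∑ i, ((starRingEnd ℂ) (α i))⁻¹ = ∑ i, α i := by
    rw [← Equiv.sum_comp τ α]
    exact Finset.sum_congr rfl fun i _ => (hτ i).symm
  have hprod : ∏ i, ((starRingEnd ℂ) (α i))⁻¹ = ∏ i, α i := by
    rw [← Equiv.prod_comp τ α]
    exact Finset.prod_congr rfl fun i _ => (hτ i).symm
  rw [Fin.sum_univ_four, Fin.sum_univ_four, ← h1, h2, ← hp, ← hq] at hsum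
  rw [Fin.prod_univ_four, Fin.prod_univ_four, ← h1, h2, ← hp, ← hq] at hprod
  have hcp : (starRingEnd ℂ) p ≠ 0 := (map_ne_zero _).2 hp0
  have hcq : (starRingEnd ℂ) q ≠ 0 := (map_ne_zero _).2 hq0
  have hs1 : ((starRingEnd ℂ) p)⁻¹ + ((starRingEnd ℂ) q)⁻¹ = p + q := by
    linear_combination hsum
  have hd1 : ((starRingEnd ℂ) p)⁻¹ * ((starRingEnd ℂ) q)⁻¹ = p * q := by
    have h3 : α 1 * α 0 ≠ 0 := mul_ne_zero (h0 1) (h0 0)
    refine mul_left_cancel₀ h3 ?_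
    linear_combination hprod
  have hd2 : ‖p * q‖ = 1 := by
    have h3 : ‖p * q‖ = ‖p * q‖⁻¹ := by
      conv_lhs => rw [← hd1]
      rw [norm_mul, norm_inv, norm_inv, RCLike.norm_conj, RCLike.norm_conj, norm_mul, mul_inv]
    have h4 : 0 < ‖p * q‖ := norm_pos_iff.2 (mul_ne_zero hp0 hq0)
    have h5 : ‖p * q‖ * ‖p * q‖ = 1 := by
      calc ‖p * q‖ * ‖p * q‖ = ‖p * q‖ * ‖p * q‖⁻¹ := by rw [← h3]
        _ = 1 := mul_inv_cancel₀ h4.ne'
    nlinarith
  obtain ⟨w, hw⟩ := IsAlgClosed.exists_pow_nat_eq (p * q) (n := 2) two_pos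
  have hw1 : ‖w‖ = 1 := by
    have h3 : ‖w‖ ^ 2 = 1 := by rw [← norm_pow, hw, hd2]
    have h4 := norm_nonneg w
    nlinarith
  have hw0 : w ≠ 0 := by
    intro h
    rw [h, norm_zero] at hw1
    exact zero_ne_one hw1
  have hcw : (starRingEnd ℂ) w = w⁻¹ := by
    conv_rhs => rw [← hunit w hw1]
    simp
  have hconj : (starRingEnd ℂ) ((p + q) / w) = (p + q) / w := by
    have h3 : (starRingEnd ℂ) p + (starRingEnd ℂ) q = (p + q) * ((starRingEnd ℂ) p * (starRingEnd ℂ) q) := by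
      rw [← hs1]
      field_simp
      ring
    have h4 : (starRingEnd ℂ) p * (starRingEnd ℂ) q = (w ^ 2)⁻¹ := by
      rw [hw, ← hd1, mul_inv, inv_inv, inv_inv]
    rw [map_div₀, map_add, h3, h4, hcw]
    field_simp
  obtain ⟨b, hb⟩ := Complex.conj_eq_iff_real.1 hconj
  have hpq : p + q = w * b := by
    rw [← hb, mul_div_cancel₀ _ hw0]
  have ha : 2 ≤ M + M⁻¹ := by
    have : M * M⁻¹ = 1 := mul_inv_cancel₀ hM0.ne'
    have h3 : 0 < M⁻¹ := inv_pos.2 hM0
    nlinarith [sq_nonneg (M - 1), sq_nonneg (M⁻¹ - 1)]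
  have key := four_alg hu1 hw1 (b := b) ha
  have e1 : ∑ i, α i = u * ((M + M⁻¹ : ℝ) : ℂ) + w * b := by
    rw [Fin.sum_univ_four, ← hp, ← hq, hα0, hα1, add_assoc _ p q, hpq]
    push_cast
    ring
  have e2 : ext2 α 1 = u ^ 2 + w ^ 2 + u * w * (((M + M⁻¹ : ℝ) : ℂ) * b) := by
    have h3 : ext2 α 1 = α 0 * α 1 + p * q + (α 0 + α 1) * (p + q) := by
      rw [ext2, Fin.sum_univ_four, Fin.sum_univ_four, ← hp, ← hq]
      ring
    rw [h3, hpq, ← hw, hα0, hα1]
    push_cast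
    field_simp
    try ring
  rw [e1, e2]
  exact key

/-- **`n = 4`: trace and trace of the exterior square of unitary Satake parameters.** -/
theorem four {α : Fin 4 → ℂ} (h0 : ∀ i, α i ≠ 0)
    (hτ : ∃ τ : Equiv.Perm (Fin 4), ∀ i, α (τ i) = ((starRingEnd ℂ) (α i))⁻¹) (i : Fin 4) :
    (‖α i‖ + ‖α i‖⁻¹ - 2) ^ 2 ≤ ‖∑ i, α i‖ ^ 2 + ‖ext2 α 1‖ ^ 2 := by
  obtain ⟨τ, hτ⟩ := hτ
  by_cases h : τ i = i
  · have h1 : ‖α i‖ = ‖α i‖⁻¹ := by
      conv_lhs => rw [← h]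
      rw [hτ i, norm_inv, RCLike.norm_conj]
    have h2 : 0 < ‖α i‖ := norm_pos_iff.2 (h0 i)
    have h3 : ‖α i‖ = 1 := by
      have h4 : ‖α i‖ * ‖α i‖ = 1 := by
        calc ‖α i‖ * ‖α i‖ = ‖α i‖ * ‖α i‖⁻¹ := by rw [← h1]
          _ = 1 := mul_inv_cancel₀ h2.ne'
      nlinarith
    rw [h3]
    norm_num
    positivity
  · have hex : ∀ i j : Fin 4, j ≠ i → ∃ σ : Equiv.Perm (Fin 4), σ 0 = i ∧ σ 1 = j := by decide
    obtain ⟨σ, hσ0, hσ1⟩ := hex i (τ i) h
    have key := four_aux (α := fun j => α (σ j)) (fun j => h0 _) (τ := (σ.trans τ).trans σ.symm)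
      (fun j => by simp [hτ]) (by rw [hσ0, hσ1, hτ])
    have e1 : ∀ k, ∑ j, α (σ j) ^ k = ∑ j, α j ^ k := fun k => Equiv.sum_comp σ fun j => α j ^ k
    have e2 : ext2 (fun j => α (σ j)) 1 = ext2 α 1 := by
      rw [ext2, ext2, e1, e1]
    have e3 : ∑ j, α (σ j) = ∑ j, α j := Equiv.sum_comp σ α
    rw [e2] at key
    simp only [hσ0] at key
    rw [e3] at key
    exact key

end Pool.Agent.Q18.S
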