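import Mathlib
import Pool.Agent.Q18.S.Power

/-!
# Places with large Satake parameters are sparse: abstract form

`ι` is a set of places, `N v > 1` the norms, `α v` unitary Satake parameters.  `rsTerm N α s (v, k)` is the term
`|∑_i α_{i,v}^{k+1}|² / (k + 1) · N v^{-(k+1) s}` of `log L(s, π × π~)`.
-/

set_option autoImplicit false

namespace Pool.Agent.Q18.S

open Finset

variable {ι : Type*}

/-- the terms of the logarithm of the Rankin-Selberg Euler product -/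
noncomputable def rsTerm (N : ι → ℝ) (t : ι → ℕ → ℂ) (s : ℝ) (x : ι × ℕ) : ℝ :=
  ‖t x.1 (x.2 + 1)‖ ^ 2 / ((x.2 : ℝ) + 1) * (N x.1 ^ (-s)) ^ (x.2 + 1)

theorem rsTerm_nonneg {N : ι → ℝ} (hN : ∀ v, 1 < N v) (t : ι → ℕ → ℂ) (s : ℝ) (x : ι × ℕ) : 0 ≤ rsTerm N t s x := by
  have : 0 ≤ N x.1 ^ (-s) := Real.rpow_nonneg (by linarith [hN x.1]) _
  rw [rsTerm]
  positivity

/-- **The sum over the exceptional places.**  The constants depend only on `n`. -/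
theorem sparse_sum.{u} (n : ℕ) : ∃ c X₀ : ℝ, 0 < c ∧ 1 ≤ X₀ ∧ ∀ {ι : Type u} (N : ι → ℝ) (_ : ∀ v, 1 < N v)
    (α : ι → Fin n → ℂ) (_ : ∀ v, ∃ τ : Equiv.Perm (Fin n), ∀ i, α v (τ i) = ((starRingEnd ℂ) (α v i))⁻¹)
    (δ s : ℝ) (_ : 0 < δ) (_ : 2 * δ ≤ s) (_ : Summable (rsTerm N (fun v k => ∑ i, α v i ^ k) s))
    (F : Finset ι) (_ : ∀ v ∈ F, X₀ ≤ N v ^ δ ∧ ∃ i, N v ^ δ ≤ ‖α v i‖),
      ∑ v ∈ F, N v ^ (-((n / 2 : ℕ) * (s - 2 * δ))) ≤ c * ∑' x, rsTerm N (fun v k => ∑ i, α v i ^ k) s x := by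
  classical
  obtain ⟨c, X₀, hc, hX₀, H⟩ := unitary_lower n
  refine ⟨(n + 1) / c ^ 2, X₀, by positivity, hX₀, ?_⟩
  intro ι N hN α hα δ s hδ hs hsum F hF
  set t : ι → ℕ → ℂ := fun v k => ∑ i, α v i ^ k with ht
  have hF' : ∀ v ∈ F, ∃ k : ℕ, k < n / 2 ∧
      N v ^ (-((n / 2 : ℕ) * (s - 2 * δ))) ≤ (n + 1) / c ^ 2 * rsTerm N t s (v, k) := by
    intro v hv
    obtain ⟨hv1, hv2⟩ := hF v hv
    obtain ⟨k, hk1, hk2, hk3⟩ := H (α v) (hα v) (N v ^ δ) hv1 hv2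
    obtain ⟨j, rfl⟩ : ∃ j, k = j + 1 := ⟨k - 1, by omega⟩
    refine ⟨j, by omega, ?_⟩
    have hN0 : 0 < N v := by linarith [hN v]
    have h1 : (c * (N v ^ δ) ^ (j + 1)) ^ 2 ≤ ‖t v (j + 1)‖ ^ 2 :=
      pow_le_pow_left₀ (by positivity) hk3 2
    have h2 : c ^ 2 * (N v ^ (-(s - 2 * δ))) ^ (j + 1) ≤ ‖t v (j + 1)‖ ^ 2 * (N v ^ (-s)) ^ (j + 1) := by
      have h3 : c ^ 2 * (N v ^ (-(s - 2 * δ))) ^ (j + 1) = (c * (N v ^ δ) ^ (j + 1)) ^ 2 * (N v ^ (-s)) ^ (j + 1) := by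
        have : N v ^ (-(s - 2 * δ)) = (N v ^ δ) ^ 2 * N v ^ (-s) := by
          rw [← Real.rpow_natCast (N v ^ δ) 2, ← Real.rpow_mul hN0.le, ← Real.rpow_add hN0]
          congr 1
          push_cast
          ring
        rw [this]
        ring
      rw [h3]
      exact mul_le_mul_of_nonneg_right h1 (by positivity)
    have hx1 : N v ^ (-(s - 2 * δ)) ≤ 1 := Real.rpow_le_one_of_one_le_of_nonpos (hN v).le (by linarith)
    have h4 : N v ^ (-((n / 2 : ℕ) * (s - 2 * δ))) ≤ (N v ^ (-(s - 2 * δ))) ^ (j + 1) := by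
      have : N v ^ (-((n / 2 : ℕ) * (s - 2 * δ))) = (N v ^ (-(s - 2 * δ))) ^ (n / 2) := by
        rw [← Real.rpow_natCast, ← Real.rpow_mul hN0.le]
        congr 1
        ring
      rw [this]
      exact pow_le_pow_of_le_one (Real.rpow_nonneg hN0.le _) hx1 hk2
    have h5 : ‖t v (j + 1)‖ ^ 2 * (N v ^ (-s)) ^ (j + 1) ≤ (n + 1) * rsTerm N t s (v, j) := by
      have h6 : ((j : ℝ) + 1) ≤ n + 1 := by
        have : j + 1 ≤ n := hk2.trans (Nat.div_le_self _ _)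
        have h7 : ((j + 1 : ℕ) : ℝ) ≤ n := by exact_mod_cast this
        push_cast at h7
        linarith
      have h7 : ‖t v (j + 1)‖ ^ 2 * (N v ^ (-s)) ^ (j + 1) = ((j : ℝ) + 1) * rsTerm N t s (v, j) := by
        rw [rsTerm]
        field_simp
      rw [h7]
      exact mul_le_mul_of_nonneg_right h6 (rsTerm_nonneg hN _ _ _)
    calc N v ^ (-((n / 2 : ℕ) * (s - 2 * δ))) ≤ (N v ^ (-(s - 2 * δ))) ^ (j + 1) := h4
      _ = 1 / c ^ 2 * (c ^ 2 * (N v ^ (-(s - 2 * δ))) ^ (j + 1)) := by field_simp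
      _ ≤ 1 / c ^ 2 * ((n + 1) * rsTerm N t s (v, j)) := mul_le_mul_of_nonneg_left (h2.trans h5) (by positivity)
      _ = (n + 1) / c ^ 2 * rsTerm N t s (v, j) := by ring
  choose! k hk1 hk2 using hF'
  have hinj : Set.InjOn (fun v => (v, k v)) (F : Set ι) := fun a _ b _ h => (Prod.mk.inj h).1
  calc ∑ v ∈ F, N v ^ (-((n / 2 : ℕ) * (s - 2 * δ))) ≤ ∑ v ∈ F, (n + 1) / c ^ 2 * rsTerm N t s (v, k v) :=
        Finset.sum_le_sum hk2
    _ = (n + 1) / c ^ 2 * ∑ x ∈ F.image (fun v => (v, k v)), rsTerm N t s x := by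
        rw [← Finset.mul_sum, Finset.sum_image hinj]
    _ ≤ (n + 1) / c ^ 2 * ∑' x, rsTerm N t s x :=
        mul_le_mul_of_nonneg_left (hsum.sum_le_tsum _ fun x _ => rsTerm_nonneg hN t s x) (by positivity)

/-- **`n = 4`, with the exterior square.** -/
theorem sum_four {N : ι → ℝ} (hN : ∀ v, 1 < N v) {α : ι → Fin 4 → ℂ} (h0 : ∀ v i, α v i ≠ 0)
    (hα : ∀ v, ∃ τ : Equiv.Perm (Fin 4), ∀ i, α v (τ i) = ((starRingEnd ℂ) (α v i))⁻¹) {s : ℝ}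
    (h1 : Summable (rsTerm N (fun v k => ∑ i, α v i ^ k) s)) (h2 : Summable (rsTerm N (fun v k => ext2 (α v) k) s))
    (F : Finset ι) (i : ι → Fin 4) :
    ∑ v ∈ F, (‖α v (i v)‖ + ‖α v (i v)‖⁻¹ - 2) ^ 2 * N v ^ (-s) ≤
      ∑' x, rsTerm N (fun v k => ∑ i, α v i ^ k) s x + ∑' x, rsTerm N (fun v k => ext2 (α v) k) s x := by
  classical
  have hterm : ∀ t : ι → ℕ → ℂ, Summable (rsTerm N t s) →
      ∑ v ∈ F, ‖t v 1‖ ^ 2 * N v ^ (-s) ≤ ∑' x, rsTerm N t s x := by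
    intro t ht
    have h3 : ∀ v, ‖t v 1‖ ^ 2 * N v ^ (-s) = rsTerm N t s (v, 0) := fun v => by simp [rsTerm]
    rw [Finset.sum_congr rfl fun v _ => h3 v]
    have hinj : Set.InjOn (fun v => (v, (0 : ℕ))) (F : Set ι) := fun a _ b _ h => (Prod.mk.inj h).1
    rw [← Finset.sum_image (f := fun x => rsTerm N t s x) hinj]
    exact ht.sum_le_tsum _ fun x _ => rsTerm_nonneg hN t s x
  calc ∑ v ∈ F, (‖α v (i v)‖ + ‖α v (i v)‖⁻¹ - 2) ^ 2 * N v ^ (-s)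
      ≤ ∑ v ∈ F, (‖∑ i, α v i ^ 1‖ ^ 2 * N v ^ (-s) + ‖ext2 (α v) 1‖ ^ 2 * N v ^ (-s)) := by
        refine Finset.sum_le_sum fun v _ => ?_
        rw [← add_mul]
        refine mul_le_mul_of_nonneg_right ?_ (Real.rpow_nonneg (by linarith [hN v]) _)
        simpa using four (h0 v) (hα v) (i v)
    _ = ∑ v ∈ F, ‖∑ i, α v i ^ 1‖ ^ 2 * N v ^ (-s) + ∑ v ∈ F, ‖ext2 (α v) 1‖ ^ 2 * N v ^ (-s) :=
        Finset.sum_add_distrib
    _ ≤ _ := add_le_add (hterm (fun v k => ∑ i, α v i ^ k) h1) (hterm (fun v k => ext2 (α v) k) h2)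

/-- from all finite sets to the series -/
theorem summable_sub {N : ι → ℝ} (hN : ∀ v, 1 < N v) {P : ι → Prop} {σ B : ℝ}
    (hB : ∀ F : Finset ι, (∀ v ∈ F, P v) → ∑ v ∈ F, N v ^ (-σ) ≤ B) :
    Summable fun v : {v : ι // P v} => N v.1 ^ (-σ) := by
  classical
  refine summable_of_sum_le (c := B) (fun v => Real.rpow_nonneg (by linarith [hN v.1]) _) fun F => ?_
  have h1 := hB (F.map (Function.Embedding.subtype P)) fun v hv => by
    rw [Finset.mem_map] at hv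
    obtain ⟨w, -, rfl⟩ := hv
    exact w.2
  rw [Finset.sum_map] at h1
  exact h1

/-- from all finite sets to the counting function -/
theorem count_sub {N : ι → ℝ} (hN : ∀ v, 1 < N v) {P : ι → Prop} {σ B : ℝ} (hσ : 0 ≤ σ)
    (hfin : ∀ b : ℝ, {v | N v ≤ b}.Finite)
    (hB : ∀ F : Finset ι, (∀ v ∈ F, P v) → ∑ v ∈ F, N v ^ (-σ) ≤ B) {x : ℝ} (hx : 0 < x) :
    (({v | N v ≤ x ∧ P v}.ncard : ℕ) : ℝ) ≤ B * x ^ σ := by
  classical
  have hf : {v | N v ≤ x ∧ P v}.Finite := (hfin x).subset fun v hv => hv.1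
  rw [Set.ncard_eq_toFinset_card _ hf]
  have h1 := hB hf.toFinset fun v hv => (hf.mem_toFinset.1 hv).2
  have h2 : (hf.toFinset.card : ℝ) * x ^ (-σ) ≤ ∑ v ∈ hf.toFinset, N v ^ (-σ) := by
    rw [← nsmul_eq_mul]
    refine Finset.card_nsmul_le_sum _ _ _ fun v hv => ?_
    exact Real.rpow_le_rpow_of_nonpos (by linarith [hN v]) (hf.mem_toFinset.1 hv).1 (by linarith)
  have h3 : x ^ (-σ) * x ^ σ = 1 := by
    rw [← Real.rpow_add hx]
    simp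
  have h4 := mul_le_mul_of_nonneg_right (h2.trans h1) (Real.rpow_nonneg hx.le σ)
  rwa [mul_assoc, h3, mul_one] at h4

/-- the finitely many places of small norm do not matter -/
theorem split_small {N : ι → ℝ} (hN : ∀ v, 1 < N v) (hfin : ∀ b : ℝ, {v | N v ≤ b}.Finite) {P : ι → Prop}
    {δ X₀ σ B : ℝ} (hδ : 0 < δ) (_hX₀ : 0 < X₀) (hσ : 0 ≤ σ)
    (hB : ∀ F : Finset ι, (∀ v ∈ F, X₀ ≤ N v ^ δ ∧ P v) → ∑ v ∈ F, N v ^ (-σ) ≤ B) :
    ∀ F : Finset ι, (∀ v ∈ F, P v) →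
      ∑ v ∈ F, N v ^ (-σ) ≤ B + ((hfin (X₀ ^ (1 / δ))).toFinset.card : ℝ) := by
  classical
  intro F hF
  rw [← Finset.sum_filter_add_sum_filter_not F fun v => X₀ ≤ N v ^ δ]
  refine add_le_add (hB _ fun v hv => ⟨(Finset.mem_filter.1 hv).2, hF v (Finset.mem_filter.1 hv).1⟩) ?_
  calc ∑ v ∈ F.filter (fun v => ¬ X₀ ≤ N v ^ δ), N v ^ (-σ) ≤ ∑ _v ∈ F.filter (fun v => ¬ X₀ ≤ N v ^ δ), (1 : ℝ) :=
        Finset.sum_le_sum fun v _ => Real.rpow_le_one_of_one_le_of_nonpos (hN v).le (by linarith)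
    _ = ((F.filter (fun v => ¬ X₀ ≤ N v ^ δ)).card : ℝ) := by simp
    _ ≤ _ := by
        refine Nat.cast_le.2 (Finset.card_le_card fun v hv => ?_)
        rw [Set.Finite.mem_toFinset]
        have h1 := not_le.1 (Finset.mem_filter.1 hv).2
        have hN0 : 0 ≤ N v := by linarith [hN v]
        have h2 : N v = (N v ^ δ) ^ (1 / δ) := by
          rw [← Real.rpow_mul hN0, mul_one_div_cancel hδ.ne', Real.rpow_one]
        show N v ≤ X₀ ^ (1 / δ)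
        rw [h2]
        exact Real.rpow_le_rpow (Real.rpow_nonneg hN0 _) h1.le (by positivity)

/-- the exceptional places, all `n` -/
theorem sparse_all.{u} (n : ℕ) {ι : Type u} {N : ι → ℝ} (hN : ∀ v, 1 < N v) (hfin : ∀ b : ℝ, {v | N v ≤ b}.Finite)
    {α : ι → Fin n → ℂ} (hα : ∀ v, ∃ τ : Equiv.Perm (Fin n), ∀ i, α v (τ i) = ((starRingEnd ℂ) (α v i))⁻¹)
    {δ σ : ℝ} (hδ : 0 < δ) (hδ2 : δ ≤ 1 / 2) (hσ : (n / 2 : ℕ) * (1 - 2 * δ) < σ)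
    (hsum : ∀ s : ℝ, 1 < s → Summable (rsTerm N (fun v k => ∑ i, α v i ^ k) s)) :
    ∃ B : ℝ, ∀ F : Finset ι, (∀ v ∈ F, ∃ i, N v ^ δ ≤ ‖α v i‖) → ∑ v ∈ F, N v ^ (-σ) ≤ B := by
  obtain ⟨c, X₀, hc, hX₀, H⟩ := sparse_sum.{u} n
  set m : ℝ := ((n / 2 : ℕ) : ℝ) with hm
  have hm0 : 0 ≤ m := Nat.cast_nonneg _
  set s : ℝ := 1 + (σ - m * (1 - 2 * δ)) / (m + 1) with hs
  have h1 : 0 < (σ - m * (1 - 2 * δ)) / (m + 1) := div_pos (by linarith) (by linarith)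
  have hs1 : 1 < s := by linarith
  have h2 : m * (s - 2 * δ) ≤ σ := by
    have h3 : (σ - m * (1 - 2 * δ)) / (m + 1) * (m + 1) = σ - m * (1 - 2 * δ) := div_mul_cancel₀ _ (by linarith)
    have h4 : m * ((σ - m * (1 - 2 * δ)) / (m + 1)) ≤ σ - m * (1 - 2 * δ) := by nlinarith
    rw [hs]
    nlinarith
  have h3 : 0 ≤ m * (s - 2 * δ) := mul_nonneg hm0 (by linarith)
  have hB : ∀ F : Finset ι, (∀ v ∈ F, X₀ ≤ N v ^ δ ∧ ∃ i, N v ^ δ ≤ ‖α v i‖) → ∑ v ∈ F, N v ^ (-σ) ≤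
      c * ∑' x, rsTerm N (fun v k => ∑ i, α v i ^ k) s x := by
    intro F hF
    refine le_trans (Finset.sum_le_sum fun v _ => ?_) (H N hN α hα δ s hδ (by linarith) (hsum s hs1) F hF)
    exact Real.rpow_le_rpow_of_exponent_le (hN v).le (by linarith)
  exact ⟨_, split_small hN hfin hδ (by linarith) (by linarith) hB⟩

/-- the exceptional places, `n = 4` with the exterior square -/
theorem four_all {N : ι → ℝ} (hN : ∀ v, 1 < N v) (hfin : ∀ b : ℝ, {v | N v ≤ b}.Finite)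
    {α : ι → Fin 4 → ℂ} (h0 : ∀ v i, α v i ≠ 0)
    (hα : ∀ v, ∃ τ : Equiv.Perm (Fin 4), ∀ i, α v (τ i) = ((starRingEnd ℂ) (α v i))⁻¹)
    {δ σ : ℝ} (hδ : 0 < δ) (hδ2 : δ ≤ 1 / 2) (hσ : 1 - 2 * δ < σ)
    (h1 : ∀ s : ℝ, 1 < s → Summable (rsTerm N (fun v k => ∑ i, α v i ^ k) s))
    (h2 : ∀ s : ℝ, 1 < s → Summable (rsTerm N (fun v k => ext2 (α v) k) s)) :
    ∃ B : ℝ, ∀ F : Finset ι, (∀ v ∈ F, ∃ i, N v ^ δ ≤ ‖α v i‖) → ∑ v ∈ F, N v ^ (-σ) ≤ B := by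
  classical
  set s : ℝ := σ + 2 * δ with hs
  have hs1 : 1 < s := by linarith
  have hB : ∀ F : Finset ι, (∀ v ∈ F, 4 ≤ N v ^ δ ∧ ∃ i, N v ^ δ ≤ ‖α v i‖) → ∑ v ∈ F, N v ^ (-σ) ≤
      4 * (∑' x, rsTerm N (fun v k => ∑ i, α v i ^ k) s x + ∑' x, rsTerm N (fun v k => ext2 (α v) k) s x) := by
    intro F hF
    have hex : ∀ v, ∃ i, (v ∈ F → N v ^ δ ≤ ‖α v i‖) := by
      intro v
      by_cases hv : v ∈ F
      · obtain ⟨i, hi⟩ := (hF v hv).2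
        exact ⟨i, fun _ => hi⟩
      · exact ⟨0, fun h => absurd h hv⟩
    choose i hi using hex
    refine le_trans ?_ (mul_le_mul_of_nonneg_left (sum_four hN h0 hα (h1 s hs1) (h2 s hs1) F i) (by norm_num))
    rw [Finset.mul_sum]
    refine Finset.sum_le_sum fun v hv => ?_
    have hN0 : 0 < N v := by linarith [hN v]
    have hX := (hF v hv).1
    have hXα := hi v hv
    set X := N v ^ δ with hXd
    have h3 : N v ^ (-σ) = X ^ 2 * N v ^ (-s) := by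
      rw [hXd, ← Real.rpow_natCast (N v ^ δ) 2, ← Real.rpow_mul hN0.le, ← Real.rpow_add hN0]
      congr 1
      rw [hs]
      push_cast
      ring
    have h4 : 0 ≤ ‖α v (i v)‖⁻¹ := by positivity
    have h5 : X / 2 ≤ ‖α v (i v)‖ + ‖α v (i v)‖⁻¹ - 2 := by linarith
    have h6 : (X / 2) ^ 2 ≤ (‖α v (i v)‖ + ‖α v (i v)‖⁻¹ - 2) ^ 2 := pow_le_pow_left₀ (by linarith) h5 2
    rw [h3]
    have h7 : 0 ≤ N v ^ (-s) := Real.rpow_nonneg hN0.le _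
    nlinarith
  exact ⟨_, split_small hN hfin hδ (by norm_num) (by linarith) hB⟩

end Pool.Agent.Q18.S
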