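import Mathlib
import Pool.Agent.TH861.GL3.Main
import Pool.Agent.Q18.S.Sparse

/-!
# Exceptional places of cuspidal representations of `GL_n` over a number field

`RankinSelberg t r`: the Dirichlet series `∑_v ∑_k |t(v, k)|² / k · (N v)^{-ks}` converges for `s > 1` and is at most
`r log (1 / (s - 1)) + C` for `1 < s ≤ 2`.
-/

set_option autoImplicit false

namespace Pool.Agent.Q18.S

open NumberField IsDedekindDomain Finset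
open Pool.Agent.TH861.GL3 (PL qq one_lt_qq finite_nm_le)

variable {K : Type*} [Field K] [NumberField K] {S : Finset (HeightOneSpectrum (𝓞 K))}

/-- `∑_{v ∉ S} ∑_{k ≥ 1} |t(v, k)|² / k · (N v)^{-ks}` converges for `s > 1` and is at most `r log (1 / (s - 1)) + C` for
`1 < s ≤ 2`.  For `t(v, k) = tr A_v^k`, `A_v` the Satake parameter of a representation, this is the
logarithm of the partial Rankin-Selberg `L`-function, and `r` the order of its pole at `s = 1`. -/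
structure RankinSelberg (t : PL S → ℕ → ℂ) (r : ℕ) : Prop where
  summable : ∀ s : ℝ, 1 < s → Summable (rsTerm (fun v : PL S => (qq v.1 : ℝ)) t s)
  pole : ∃ C : ℝ, ∀ s : ℝ, 1 < s → s ≤ 2 →
    ∑' x, rsTerm (fun v : PL S => (qq v.1 : ℝ)) t s x ≤ r * Real.log (1 / (s - 1)) + C

/-- unitary nonzero Satake parameters -/
structure UnitarySatake {n : ℕ} (α : PL S → Fin n → ℂ) : Prop where
  ne_zero : ∀ v i, α v i ≠ 0
  unitary : ∀ v, ∃ τ : Equiv.Perm (Fin n), ∀ i, α v (τ i) = ((starRingEnd ℂ) (α v i))⁻¹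

theorem norm_gt (v : PL S) : 1 < (qq v.1 : ℝ) := one_lt_qq v.1

theorem fin_places (b : ℝ) : {v : PL S | (qq v.1 : ℝ) ≤ b}.Finite := by
  refine Set.Finite.of_finite_image (f := fun v : PL S => v.1)
    ((finite_nm_le K ⌊b⌋₊).subset ?_) (Subtype.val_injective.injOn)
  rintro _ ⟨v, hv, rfl⟩
  exact Nat.le_floor hv

variable {n : ℕ} {α : PL S → Fin n → ℂ}

theorem sparse_places (h : UnitarySatake α) {r : ℕ} (h1 : RankinSelberg (fun v k => ∑ i, α v i ^ k) r) {δ σ : ℝ}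
    (hδ : 0 < δ) (hδ2 : δ ≤ 1 / 2) (hσ : (n / 2 : ℕ) * (1 - 2 * δ) < σ) :
    (Summable fun v : {v : PL S // ∃ i, (qq v.1 : ℝ) ^ δ ≤ ‖α v i‖} => (qq v.1.1 : ℝ) ^ (-σ)) ∧
    ∃ C : ℝ, ∀ x : ℝ, 0 < x →
      (({v : PL S | (qq v.1 : ℝ) ≤ x ∧ ∃ i, (qq v.1 : ℝ) ^ δ ≤ ‖α v i‖}.ncard : ℕ) : ℝ) ≤ C * x ^ σ := by
  obtain ⟨B, hB⟩ := sparse_all n norm_gt fin_places h.unitary hδ hδ2 hσ h1.summable
  have hσ0 : 0 ≤ σ := by
    have h2 : 0 ≤ ((n / 2 : ℕ) : ℝ) * (1 - 2 * δ) := mul_nonneg (Nat.cast_nonneg _) (by linarith)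
    linarith
  exact ⟨summable_sub norm_gt hB, B, fun x hx => count_sub norm_gt hσ0 fin_places hB hx⟩

theorem four_places {α : PL S → Fin 4 → ℂ} (h : UnitarySatake α) {r₁ r₂ : ℕ}
    (h1 : RankinSelberg (fun v k => ∑ i, α v i ^ k) r₁) (h2 : RankinSelberg (fun v k => ext2 (α v) k) r₂) {δ σ : ℝ}
    (hδ : 0 < δ) (hδ2 : δ ≤ 1 / 2) (hσ : 1 - 2 * δ < σ) :
    (Summable fun v : {v : PL S // ∃ i, (qq v.1 : ℝ) ^ δ ≤ ‖α v i‖} => (qq v.1.1 : ℝ) ^ (-σ)) ∧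
    ∃ C : ℝ, ∀ x : ℝ, 0 < x →
      (({v : PL S | (qq v.1 : ℝ) ≤ x ∧ ∃ i, (qq v.1 : ℝ) ^ δ ≤ ‖α v i‖}.ncard : ℕ) : ℝ) ≤ C * x ^ σ := by
  obtain ⟨B, hB⟩ := four_all norm_gt fin_places h.ne_zero h.unitary hδ hδ2 hσ h1.summable h2.summable
  exact ⟨summable_sub norm_gt hB, B, fun x hx => count_sub norm_gt (by linarith) fin_places hB hx⟩

/-- the mean square of `X + 1 / X - 2` -/
theorem four_mean {α : PL S → Fin 4 → ℂ} (h : UnitarySatake α) {r₁ r₂ : ℕ}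
    (h1 : RankinSelberg (fun v k => ∑ i, α v i ^ k) r₁) (h2 : RankinSelberg (fun v k => ext2 (α v) k) r₂) :
    ∃ C : ℝ, ∀ s : ℝ, 1 < s → s ≤ 2 → ∀ i : PL S → Fin 4,
      (Summable fun v : PL S => (‖α v (i v)‖ + ‖α v (i v)‖⁻¹ - 2) ^ 2 * (qq v.1 : ℝ) ^ (-s)) ∧
      ∑' v : PL S, (‖α v (i v)‖ + ‖α v (i v)‖⁻¹ - 2) ^ 2 * (qq v.1 : ℝ) ^ (-s) ≤
        (r₁ + r₂) * Real.log (1 / (s - 1)) + C := by
  obtain ⟨C₁, hC₁⟩ := h1.pole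
  obtain ⟨C₂, hC₂⟩ := h2.pole
  refine ⟨C₁ + C₂, fun s hs hs2 i => ?_⟩
  have hb := fun F : Finset (PL S) => sum_four norm_gt h.ne_zero h.unitary (h1.summable s hs) (h2.summable s hs) F i
  have hnn : ∀ v : PL S, 0 ≤ (‖α v (i v)‖ + ‖α v (i v)‖⁻¹ - 2) ^ 2 * (qq v.1 : ℝ) ^ (-s) := fun v =>
    mul_nonneg (sq_nonneg _) (Real.rpow_nonneg (by linarith [norm_gt v]) _)
  have hsm := summable_of_sum_le hnn hb
  refine ⟨hsm, (hsm.tsum_le_of_sum_le hb).trans ?_⟩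
  have := add_le_add (hC₁ s hs hs2) (hC₂ s hs hs2)
  linarith

/-- Chebyshev's inequality -/
theorem four_dens {α : PL S → Fin 4 → ℂ} (h : UnitarySatake α) {r₁ r₂ : ℕ}
    (h1 : RankinSelberg (fun v k => ∑ i, α v i ^ k) r₁) (h2 : RankinSelberg (fun v k => ext2 (α v) k) r₂) {X : ℝ}
    (hX : 1 < X) :
    ∃ C : ℝ, ∀ s : ℝ, 1 < s → s ≤ 2 →
      ∑' v : {v : PL S // ∃ i, X ≤ ‖α v i‖}, (qq v.1.1 : ℝ) ^ (-s) ≤
        (r₁ + r₂) / (X + X⁻¹ - 2) ^ 2 * Real.log (1 / (s - 1)) + C := by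
  classical
  obtain ⟨C, hC⟩ := four_mean h h1 h2
  have hXX : 0 < X + X⁻¹ - 2 := by
    have h3 : X * X⁻¹ = 1 := mul_inv_cancel₀ (by linarith)
    have h4 : 0 < X⁻¹ := inv_pos.2 (by linarith)
    have h5 : X⁻¹ < 1 := inv_lt_one_of_one_lt₀ hX
    nlinarith [mul_pos (sub_pos.2 hX) (sub_pos.2 h5)]
  refine ⟨C / (X + X⁻¹ - 2) ^ 2, fun s hs hs2 => ?_⟩
  have hex : ∀ v : PL S, ∃ i, ((∃ j, X ≤ ‖α v j‖) → X ≤ ‖α v i‖) := by
    intro v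
    by_cases hv : ∃ j, X ≤ ‖α v j‖
    · exact ⟨hv.choose, fun _ => hv.choose_spec⟩
    · exact ⟨0, fun h => absurd h hv⟩
  choose i hi using hex
  obtain ⟨hsm, hle⟩ := hC s hs hs2 i
  have hmono : ∀ v : {v : PL S // ∃ i, X ≤ ‖α v i‖}, (X + X⁻¹ - 2) ^ 2 * (qq v.1.1 : ℝ) ^ (-s) ≤
      (‖α v.1 (i v.1)‖ + ‖α v.1 (i v.1)‖⁻¹ - 2) ^ 2 * (qq v.1.1 : ℝ) ^ (-s) := by
    intro v
    refine mul_le_mul_of_nonneg_right (pow_le_pow_left₀ hXX.le ?_ 2) (Real.rpow_nonneg (by linarith [norm_gt v.1]) _)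
    have h3 := hi v.1 v.2
    set Y := ‖α v.1 (i v.1)‖
    have hY : 0 < Y := by linarith
    have h4 : X + X⁻¹ ≤ Y + Y⁻¹ := by
      have h5 : Y + Y⁻¹ - (X + X⁻¹) = (Y - X) * (1 - (X * Y)⁻¹) := by
        have hX0 : X ≠ 0 := by linarith
        field_simp
        ring
      have h6 : (X * Y)⁻¹ ≤ 1 := inv_le_one_of_one_le₀ (by nlinarith)
      have h7 : 0 ≤ (Y - X) * (1 - (X * Y)⁻¹) := mul_nonneg (by linarith) (by linarith)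
      linarith
    linarith
  have hs1 : Summable fun v : {v : PL S // ∃ i, X ≤ ‖α v i‖} =>
      (‖α v.1 (i v.1)‖ + ‖α v.1 (i v.1)‖⁻¹ - 2) ^ 2 * (qq v.1.1 : ℝ) ^ (-s) := hsm.comp_injective Subtype.val_injective
  have hnn : ∀ v : PL S, 0 ≤ (‖α v (i v)‖ + ‖α v (i v)‖⁻¹ - 2) ^ 2 * (qq v.1 : ℝ) ^ (-s) := fun v =>
    mul_nonneg (sq_nonneg _) (Real.rpow_nonneg (by linarith [norm_gt v]) _)
  have h8 : ∑' v : {v : PL S // ∃ i, X ≤ ‖α v i‖}, (‖α v.1 (i v.1)‖ + ‖α v.1 (i v.1)‖⁻¹ - 2) ^ 2 * (qq v.1.1 : ℝ) ^ (-s) ≤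
      ∑' v : PL S, (‖α v (i v)‖ + ‖α v (i v)‖⁻¹ - 2) ^ 2 * (qq v.1 : ℝ) ^ (-s) :=
    tsum_comp_le_tsum_of_inj hsm hnn Subtype.val_injective
  have hs2' : Summable fun v : {v : PL S // ∃ i, X ≤ ‖α v i‖} => (X + X⁻¹ - 2) ^ 2 * (qq v.1.1 : ℝ) ^ (-s) :=
    Summable.of_nonneg_of_le (fun v => mul_nonneg (sq_nonneg _) (Real.rpow_nonneg (by linarith [norm_gt v.1]) _)) hmono hs1
  have h9 := (hs2'.tsum_le_tsum hmono hs1).trans (h8.trans hle)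
  rw [tsum_mul_left] at h9
  have h10 : 0 < (X + X⁻¹ - 2) ^ 2 := by positivity
  calc ∑' v : {v : PL S // ∃ i, X ≤ ‖α v i‖}, (qq v.1.1 : ℝ) ^ (-s)
      ≤ ((r₁ + r₂) * Real.log (1 / (s - 1)) + C) / (X + X⁻¹ - 2) ^ 2 := by
        rw [le_div_iff₀ h10]
        linarith
    _ = (r₁ + r₂) / (X + X⁻¹ - 2) ^ 2 * Real.log (1 / (s - 1)) + C / (X + X⁻¹ - 2) ^ 2 := by ring

end Pool.Agent.Q18.S
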